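import Pool.Agent.H67.AT.Targets
import Pool.Agent.H67.AT.Ser

/-!
# MP_81fcf0_co, part B: the edges of a block of level `0`
-/

set_option autoImplicit false

open Finset PowerSeries Pool.Agent.H67.AT

namespace Pool.Agent.H49.AT

theorem pf_MU0 : T_MU0 := by
  intro X E Y _ _ _ _ _ _ G x x' hP
  have hsum : G.P x x' = ∑ e, if G.src e = x ∧ G.tgt e = x' then G.wt e else 0 := rfl
  have hmu : ∀ e, mu0 G x x' e =
      (if G.src e = x ∧ G.tgt e = x' then G.wt e else 0) / G.P x x' := by
    intro e
    unfold mu0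
    split_ifs <;> simp
  refine ⟨?_, ?_, ?_, ?_⟩
  · simp only [hmu, ← Finset.sum_div, ← hsum]
    exact div_self hP.ne'
  · intro e
    rw [hmu]
    refine div_nonneg ?_ hP.le
    split_ifs
    · exact G.nonneg e
    · exact le_rfl
  · intro e he
    rw [hmu] at he
    split_ifs at he with h
    · refine ⟨h.1, h.2, ?_⟩
      have h0 := G.nonneg e
      rcases h0.lt_or_eq with h1 | h1
      · exact h1
      · rw [← h1, zero_div] at he
        exact absurd he (lt_irrefl _)
    · rw [zero_div] at he
      exact absurd he (lt_irrefl _)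
  · intro y
    have h1 : uses G.P (Mm G) 1 x x' y = Mm G y x x' / G.P x x' := by
      unfold uses usk
      rw [Finset.sum_range_one]
      simp
    rw [h1]
    have h2 : Mm G y x x' =
        ∑ e, if G.src e = x ∧ G.tgt e = x' ∧ G.lt e = some y then G.wt e else 0 := rfl
    rw [h2, Finset.sum_div]
    refine Finset.sum_congr rfl fun e _ => ?_
    rw [hmu]
    unfold rhoE
    by_cases a : G.src e = x ∧ G.tgt e = x'
    · by_cases b : G.lt e = some y
      · have c : G.src e = x ∧ G.tgt e = x' ∧ G.lt e = some y := ⟨a.1, a.2, b⟩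
        rw [if_pos a, if_pos b, if_pos c, mul_one]
      · have c : ¬ (G.src e = x ∧ G.tgt e = x' ∧ G.lt e = some y) := fun h => b h.2.2
        rw [if_neg b, if_neg c, mul_zero, zero_div]
    · have c : ¬ (G.src e = x ∧ G.tgt e = x' ∧ G.lt e = some y) := fun h => a ⟨h.1, h.2.1⟩
      rw [if_neg a, if_neg c, zero_div, zero_mul]

end Pool.Agent.H49.AT
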