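import Pool.Agent.H67.AT.Targets
import Pool.Agent.H67.AT.Ser

/-!
# MP_81fcf0_co, part B: the skeletons of a block have total probability one
-/

set_option autoImplicit false

open Finset PowerSeries Pool.Agent.H67.AT

namespace Pool.Agent.H49.AT

theorem P_nonneg {X E Y : Type} [Fintype X] [DecidableEq X] [Fintype E] [DecidableEq Y]
    (G : Net X E Y) (x z : X) : 0 ≤ G.P x z := by
  have h : G.P x z = ∑ e, if G.src e = x ∧ G.tgt e = z then G.wt e else 0 := rfl
  rw [h]
  refine Finset.sum_nonneg fun e _ => ?_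
  split_ifs
  · exact G.nonneg e
  · exact le_rfl

theorem pow_nonneg_entry {X : Type} [Fintype X] [DecidableEq X] (P : Matrix X X ℝ)
    (hP : ∀ x z, 0 ≤ P x z) (n : ℕ) : ∀ x z, 0 ≤ (P ^ n) x z := by
  induction n with
  | zero =>
    intro x z
    rw [pow_zero, Matrix.one_apply]
    split_ifs
    · exact zero_le_one
    · exact le_rfl
  | succ n ih =>
    intro x z
    rw [pow_succ, Matrix.mul_apply]
    exact Finset.sum_nonneg fun i _ => mul_nonneg (ih _ _) (hP _ _)

theorem pf_MU1 (hSKM : T_SKM) : T_MU1 := by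
  intro X E Y _ _ _ _ _ _ G k l x x' hpos
  set Q := G.P ^ k ^ l with hQ
  have hQn : ∀ a b, 0 ≤ Q a b := pow_nonneg_entry G.P (P_nonneg G) _
  have hskw : ∀ s : Fin (k + 1) → X, 0 ≤ skw Q s := fun s =>
    Finset.prod_nonneg fun i _ => hQn _ _
  have hmu : ∀ s : Fin (k + 1) → X, mu G k l x x' s =
      (if s 0 = x ∧ s (Fin.last k) = x' then skw Q s else 0) / (G.P ^ k ^ (l + 1)) x x' := by
    intro s
    unfold mu
    split_ifs
    · rfl
    · rw [zero_div]
  refine ⟨?_, fun s => ⟨?_, fun hs => ?_⟩⟩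
  · simp only [hmu, ← Finset.sum_div]
    have h1 := hSKM ℝ X k (fun _ => Q) x x'
    have h2 : (List.ofFn fun _ : Fin k => Q).prod = G.P ^ k ^ (l + 1) := by
      rw [List.ofFn_const, List.prod_replicate, hQ, ← pow_mul, ← pow_succ]
    rw [h2] at h1
    have h3 : (∑ s : Fin (k + 1) → X, if s 0 = x ∧ s (Fin.last k) = x' then skw Q s else 0) =
        (G.P ^ k ^ (l + 1)) x x' := h1
    rw [h3]
    exact div_self hpos.ne'
  · rw [hmu]
    refine div_nonneg ?_ hpos.le
    split_ifs
    · exact hskw s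
    · exact le_rfl
  · rw [hmu] at hs
    split_ifs at hs with h
    · refine ⟨h.1, h.2, fun i => ?_⟩
      have h4 : skw Q s ≠ 0 := by
        intro h5
        rw [h5, zero_div] at hs
        exact absurd hs (lt_irrefl _)
      have h5 : Q (s i.castSucc) (s i.succ) ≠ 0 := fun h6 =>
        h4 (Finset.prod_eq_zero (Finset.mem_univ i) h6)
      exact lt_of_le_of_ne (hQn _ _) h5.symm
    · rw [zero_div] at hs
      exact absurd hs (lt_irrefl _)

end Pool.Agent.H49.AT
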