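import Pool.Agent.H67.AT.Targets
import Pool.Agent.H67.AT.Ser

/-!
# MP_81fcf0_co, part B: the coefficient of `z` and the expected uses
-/

set_option autoImplicit false

open Finset PowerSeries Pool.Agent.H67.AT

namespace Pool.Agent.H49.AT

theorem coeff_one_prod' {ι : Type*} (t : Finset ι) (F : ι → PS)
    (h : ∀ i ∈ t, coeff 0 (F i) = 1) :
    coeff 0 (∏ i ∈ t, F i) = 1 ∧ coeff 1 (∏ i ∈ t, F i) = ∑ i ∈ t, coeff 1 (F i) := by
  classical
  induction t using Finset.induction_on with
  | empty => simp [coeff_one]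
  | insert a t ha ih =>
    have ih' := ih fun i hi => h i (Finset.mem_insert_of_mem hi)
    have h0 := h a (Finset.mem_insert_self _ _)
    rw [Finset.prod_insert ha, Finset.sum_insert ha]
    constructor
    · rw [coeff_mul, Finset.Nat.antidiagonal_zero, Finset.sum_singleton]
      simp only
      rw [h0, ih'.1, mul_one]
    · rw [coeff_mul, Finset.Nat.antidiagonal_succ, Finset.sum_cons, Finset.Nat.antidiagonal_zero]
      simp only [Finset.map_singleton, Finset.sum_singleton, Function.Embedding.prodMap,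
        Function.Embedding.coeFn_mk, Prod.map_apply, Function.Embedding.refl_apply]
      rw [h0, ih'.2]
      have e : coeff (Nat.succ 0) (F a) * coeff 0 (∏ i ∈ t, F i) = coeff 1 (F a) := by
        rw [ih'.1, mul_one]
      rw [e, one_mul, add_comm]

theorem pf_QLO (hUSU : T_USU) (hMU0 : T_MU0) (hMU1 : T_MU1) (hQNN : T_QNN) : T_QLO := by
  intro X E Y _ _ _ _ _ _ G k a mk v hv ha hmk ha0 hmk0 hva l
  obtain ⟨hnn, hone⟩ := hQNN X E Y G k a mk ha hmk
  have hone' := hone ha0 hmk0
  induction l with
  | zero =>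
    intro x x' hpos
    have hpos' : 0 < G.P x x' := by
      rw [pow_zero, pow_one] at hpos
      exact hpos
    obtain ⟨m1, m2, m3, m4⟩ := hMU0 X E Y G x x' hpos'
    have e1 : (qs G k a mk 0 x x').fst =
        dblp (∑ e, mu0 G x x' e • (a e).fst) + (mk 0 x x').fst := by
      have : qs G k a mk 0 x x' = dbl (∑ e, mu0 G x x' e • a e) + mk 0 x x' := rfl
      rw [this, TrivSqZeroExt.fst_add, fst_dbl, fst_sum]
      rfl
    rw [e1, map_add, coeff_dblp, if_neg one_ne_zero, map_sum]
    have e2 : ∀ e, coeff 1 (mu0 G x x' e • (a e).fst) = mu0 G x x' e * coeff 1 (a e).fst := by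
      intro e
      rw [map_smul, smul_eq_mul]
    simp only [e2]
    have e3 : ∀ e, wo v (G.lt e) = ∑ y, v y * rhoE G e y := by
      intro e
      unfold rhoE
      cases hlt : G.lt e with
      | none => simp [wo]
      | some y0 =>
        simp [wo]
    have e4 : ∑ y, v y * uses G.P (Mm G) (k ^ 0) x x' y =
        ∑ e, mu0 G x x' e * wo v (G.lt e) := by
      rw [pow_zero]
      simp only [← m4, e3, Finset.mul_sum]
      rw [Finset.sum_comm]
      refine Finset.sum_congr rfl fun e _ => Finset.sum_congr rfl fun y _ => ?_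
      ring
    rw [e4]
    have e5 : ∑ e, mu0 G x x' e * wo v (G.lt e) ≤ ∑ e, mu0 G x x' e * coeff 1 (a e).fst :=
      Finset.sum_le_sum fun e _ => mul_le_mul_of_nonneg_left (hva e) (m2 e)
    have e6 : 0 ≤ ∑ e, mu0 G x x' e * coeff 1 (a e).fst :=
      Finset.sum_nonneg fun e _ => mul_nonneg (m2 e) ((ha e).1 1)
    have e7 := (hmk 0 x x').1 1
    linarith
  | succ l ih =>
    intro x x' hpos
    obtain ⟨m1, m2⟩ := hMU1 X E Y G k l x x' hpos
    have e1 : (qs G k a mk (l + 1) x x').fst =
        dblp (∑ s : Fin (k + 1) → X, mu G k l x x' s •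
          ∏ i : Fin k, (qs G k a mk l (s i.castSucc) (s i.succ)).fst) +
          (mk (l + 1) x x').fst := by
      have : qs G k a mk (l + 1) x x' = dbl (∑ s : Fin (k + 1) → X, mu G k l x x' s •
        ∏ i : Fin k, qs G k a mk l (s i.castSucc) (s i.succ)) + mk (l + 1) x x' := rfl
      rw [this, TrivSqZeroExt.fst_add, fst_dbl, fst_sum]
      have e : ∀ s : Fin (k + 1) → X, (mu G k l x x' s •
          ∏ i : Fin k, qs G k a mk l (s i.castSucc) (s i.succ)).fst = mu G k l x x' s •
          ∏ i : Fin k, (qs G k a mk l (s i.castSucc) (s i.succ)).fst := by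
        intro s
        rw [TrivSqZeroExt.fst_smul, fst_prod]
      simp only [e]
    rw [e1, map_add, coeff_dblp, if_neg one_ne_zero, map_sum]
    have e2 : ∀ s : Fin (k + 1) → X, coeff 1 (mu G k l x x' s •
        ∏ i : Fin k, (qs G k a mk l (s i.castSucc) (s i.succ)).fst) = mu G k l x x' s *
        coeff 1 (∏ i : Fin k, (qs G k a mk l (s i.castSucc) (s i.succ)).fst) := by
      intro s
      rw [map_smul, smul_eq_mul]
    simp only [e2]
    have hprodnn : ∀ s : Fin (k + 1) → X,
        0 ≤ coeff 1 (∏ i : Fin k, (qs G k a mk l (s i.castSucc) (s i.succ)).fst) := fun s =>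
      (PNn.prod fun i _ => (hnn l (s i.castSucc) (s i.succ)).1) 1
    have e3 : ∀ s : Fin (k + 1) → X,
        mu G k l x x' s * ∑ i : Fin k, ∑ y, v y *
          uses G.P (Mm G) (k ^ l) (s i.castSucc) (s i.succ) y ≤
        mu G k l x x' s *
          coeff 1 (∏ i : Fin k, (qs G k a mk l (s i.castSucc) (s i.succ)).fst) := by
      intro s
      obtain ⟨m3, m4⟩ := m2 s
      rcases m3.lt_or_eq with h | h
      · obtain ⟨-, -, m5⟩ := m4 h
        refine mul_le_mul_of_nonneg_left ?_ m3
        rw [(coeff_one_prod' univ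
          (fun i : Fin k => (qs G k a mk l (s i.castSucc) (s i.succ)).fst)
          (fun i _ => hone' l _ _ (m5 i))).2]
        exact Finset.sum_le_sum fun i _ => ih _ _ (m5 i)
      · rw [← h, zero_mul, zero_mul]
    have e4 : ∑ y, v y * uses G.P (Mm G) (k ^ (l + 1)) x x' y =
        ∑ s : Fin (k + 1) → X, mu G k l x x' s * ∑ i : Fin k, ∑ y, v y *
          uses G.P (Mm G) (k ^ l) (s i.castSucc) (s i.succ) y := by
      have e : ∀ y, v y * uses G.P (Mm G) (k ^ (l + 1)) x x' y =
          ∑ s : Fin (k + 1) → X, mu G k l x x' s * ∑ i : Fin k, v y *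
            uses G.P (Mm G) (k ^ l) (s i.castSucc) (s i.succ) y := by
        intro y
        rw [← hUSU X E Y G k l x x' y hpos, Finset.mul_sum]
        refine Finset.sum_congr rfl fun s _ => ?_
        rw [← Finset.mul_sum]
        ring
      rw [Finset.sum_congr rfl fun y _ => e y, Finset.sum_comm]
      refine Finset.sum_congr rfl fun s _ => ?_
      rw [← Finset.mul_sum, Finset.sum_comm]
    rw [e4]
    have e5 := Finset.sum_le_sum fun (s : Fin (k + 1) → X) (_ : s ∈ univ) => e3 s
    have e6 : 0 ≤ ∑ s : Fin (k + 1) → X, mu G k l x x' s *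
        coeff 1 (∏ i : Fin k, (qs G k a mk l (s i.castSucc) (s i.succ)).fst) :=
      Finset.sum_nonneg fun s _ => mul_nonneg (m2 s).1 (hprodnn s)
    have e7 := (hmk (l + 1) x x').1 1
    linarith

end Pool.Agent.H49.AT
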