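import Pool.Agent.H67.AT.Targets
import Pool.Agent.H67.AT.Ser

/-!
# MP_81fcf0_co, part B: a sum over the skeletons with a marked step
-/

set_option autoImplicit false

open Finset PowerSeries Pool.Agent.H67.AT

namespace Pool.Agent.H49.AT

theorem prod_ofFn_mark {M : Type} [Monoid M] (A B : M) : ∀ (k : ℕ) (j : Fin k),
    (List.ofFn fun i : Fin k => if i = j then B else A).prod =
      A ^ (j : ℕ) * B * A ^ (k - 1 - (j : ℕ)) := by
  intro k
  induction k with
  | zero => exact fun j => j.elim0
  | succ k ih =>
    intro j
    refine Fin.cases ?_ (fun j => ?_) j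
    · rw [List.ofFn_succ, List.prod_cons, if_pos rfl]
      have h1 : (List.ofFn fun i : Fin k => if i.succ = (0 : Fin (k + 1)) then B else A) =
          List.replicate k A := by
        rw [← List.ofFn_const]
        congr 1
      rw [h1, List.prod_replicate]
      simp
    · rw [List.ofFn_succ, List.prod_cons, if_neg (Fin.succ_ne_zero j).symm]
      have h1 : (List.ofFn fun i : Fin k => if i.succ = j.succ then B else A) =
          List.ofFn fun i : Fin k => if i = j then B else A := by
        congr 1
        funext i
        simp only [Fin.succ_inj]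
      rw [h1, ih j]
      have h2 : k + 1 - 1 - ((j.succ : Fin (k + 1)) : ℕ) = k - 1 - (j : ℕ) := by
        rw [Fin.val_succ]
        omega
      rw [h2, Fin.val_succ, pow_succ']
      simp only [mul_assoc]

theorem pf_SK1 (hSKM : T_SKM) : T_SK1 := by
  intro R X _ _ _ k A B x x'
  have h1 : ∀ s : Fin (k + 1) → X, (if s 0 = x ∧ s (Fin.last k) = x' then
      ∑ j : Fin k, ∏ i : Fin k, (if i = j then B else A) (s i.castSucc) (s i.succ) else 0) =
      ∑ j : Fin k, if s 0 = x ∧ s (Fin.last k) = x' then
        ∏ i : Fin k, (if i = j then B else A) (s i.castSucc) (s i.succ) else 0 := by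
    intro s
    split_ifs
    · rfl
    · exact Finset.sum_const_zero.symm
  rw [Finset.sum_congr rfl fun s _ => h1 s, Finset.sum_comm]
  have h2 : ∀ j : Fin k, (∑ s : Fin (k + 1) → X, if s 0 = x ∧ s (Fin.last k) = x' then
      ∏ i : Fin k, (if i = j then B else A) (s i.castSucc) (s i.succ) else 0) =
      (A ^ (j : ℕ) * B * A ^ (k - 1 - (j : ℕ))) x x' := by
    intro j
    have h3 := hSKM R X k (fun i => if i = j then B else A) x x'
    rw [prod_ofFn_mark] at h3
    exact h3
  rw [Finset.sum_congr rfl fun j _ => h2 j, Matrix.sum_apply,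
    ← Fin.sum_univ_eq_sum_range (fun j => (A ^ j * B * A ^ (k - 1 - j)) x x')]

end Pool.Agent.H49.AT
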