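import Pool.Agent.H49.AT.MU1

/-!
# MP_81fcf0_co, part B: the expected uses of a block
-/

set_option autoImplicit false

open Finset PowerSeries Pool.Agent.H67.AT

namespace Pool.Agent.H49.AT

theorem Mm_nonneg {X E Y : Type} [Fintype X] [DecidableEq X] [Fintype E] [DecidableEq Y]
    (G : Net X E Y) (y : Y) (x z : X) : 0 ≤ Mm G y x z := by
  have h : Mm G y x z =
      ∑ e, if G.src e = x ∧ G.tgt e = z ∧ G.lt e = some y then G.wt e else 0 := rfl
  rw [h]
  refine Finset.sum_nonneg fun e _ => ?_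
  split_ifs
  · exact G.nonneg e
  · exact le_rfl

theorem Mm_le {X E Y : Type} [Fintype X] [DecidableEq X] [Fintype E] [DecidableEq Y]
    (G : Net X E Y) (y : Y) (x z : X) : Mm G y x z ≤ G.P x z := by
  have h : Mm G y x z =
      ∑ e, if G.src e = x ∧ G.tgt e = z ∧ G.lt e = some y then G.wt e else 0 := rfl
  have h' : G.P x z = ∑ e, if G.src e = x ∧ G.tgt e = z then G.wt e else 0 := rfl
  rw [h, h']
  refine Finset.sum_le_sum fun e _ => ?_
  by_cases a : G.src e = x ∧ G.tgt e = z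
  · rw [if_pos a]
    split_ifs
    · exact le_rfl
    · exact G.nonneg e
  · rw [if_neg a, if_neg fun h => a ⟨h.1, h.2.1⟩]

theorem mul_mono_entry {X : Type} [Fintype X] (A A' B B' : Matrix X X ℝ)
    (hA : ∀ x z, 0 ≤ A x z) (hB' : ∀ x z, 0 ≤ B' x z) (h : ∀ x z, A x z ≤ A' x z)
    (h' : ∀ x z, B x z ≤ B' x z) (x z : X) : (A * B) x z ≤ (A' * B') x z := by
  rw [Matrix.mul_apply, Matrix.mul_apply]
  exact Finset.sum_le_sum fun i _ =>
    (mul_le_mul_of_nonneg_left (h' i z) (hA x i)).trans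
      (mul_le_mul_of_nonneg_right (h x i) (hB' i z))

theorem mul_nonneg_entry {X : Type} [Fintype X] (A B : Matrix X X ℝ)
    (hA : ∀ x z, 0 ≤ A x z) (hB : ∀ x z, 0 ≤ B x z) (x z : X) : 0 ≤ (A * B) x z := by
  rw [Matrix.mul_apply]
  exact Finset.sum_nonneg fun i _ => mul_nonneg (hA _ _) (hB _ _)

/-- the marked weights are between `0` and `h` times the weights -/
theorem usk_bounds {X : Type} [Fintype X] [DecidableEq X] (P M : Matrix X X ℝ)
    (hP : ∀ x z, 0 ≤ P x z) (hM : ∀ x z, 0 ≤ M x z) (hMP : ∀ x z, M x z ≤ P x z) (h : ℕ)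
    (x z : X) : 0 ≤ usk P M h x z ∧ usk P M h x z ≤ h * (P ^ h) x z := by
  unfold usk
  rw [Matrix.sum_apply]
  constructor
  · refine Finset.sum_nonneg fun i _ => ?_
    exact mul_nonneg_entry _ _
      (mul_nonneg_entry _ _ (pow_nonneg_entry P hP i) hM) (pow_nonneg_entry P hP _) x z
  · have h1 : ∀ i ∈ range h, (P ^ i * M * P ^ (h - 1 - i)) x z ≤ (P ^ h) x z := by
      intro i hi
      have hi' := Finset.mem_range.mp hi
      have e : P ^ h = P ^ i * P * P ^ (h - 1 - i) := by
        rw [← pow_succ, ← pow_add]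
        congr 1
        omega
      rw [e]
      refine mul_mono_entry _ _ _ _ (mul_nonneg_entry _ _ (pow_nonneg_entry P hP i) hM)
        (pow_nonneg_entry P hP _) ?_ (fun _ _ => le_rfl) x z
      exact mul_mono_entry _ _ _ _ (pow_nonneg_entry P hP i) hP (fun _ _ => le_rfl) hMP
    calc ∑ i ∈ range h, (P ^ i * M * P ^ (h - 1 - i)) x z
        ≤ ∑ _i ∈ range h, (P ^ h) x z := Finset.sum_le_sum h1
      _ = h * (P ^ h) x z := by rw [Finset.sum_const, Finset.card_range, nsmul_eq_mul]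

theorem pf_USU (hSK1 : T_SK1) (hUSE : T_USE) (hMU1 : T_MU1) : T_USU := by
  intro X E Y _ _ _ _ _ _ G k l x x' y hpos
  set Q := G.P ^ k ^ l with hQ
  set N := usk G.P (Mm G y) (k ^ l) with hN
  have hQn : ∀ a b, 0 ≤ Q a b := pow_nonneg_entry G.P (P_nonneg G) _
  have hb : ∀ a b, 0 ≤ N a b ∧ N a b ≤ ((k ^ l : ℕ) : ℝ) * Q a b :=
    usk_bounds G.P (Mm G y) (P_nonneg G) (Mm_nonneg G y) (Mm_le G y) (k ^ l)
  have hz : ∀ a b, Q a b = 0 → N a b = 0 := by
    intro a b h
    have h1 := hb a b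
    rw [h, mul_zero] at h1
    exact le_antisymm h1.2 h1.1
  have hu : ∀ a b, uses G.P (Mm G) (k ^ l) a b y = N a b / Q a b := fun _ _ => rfl
  have hmu : ∀ s : Fin (k + 1) → X, mu G k l x x' s *
      ∑ i : Fin k, uses G.P (Mm G) (k ^ l) (s i.castSucc) (s i.succ) y =
      (if s 0 = x ∧ s (Fin.last k) = x' then
        ∑ j : Fin k, ∏ i : Fin k, (if i = j then N else Q) (s i.castSucc) (s i.succ) else 0) /
        (G.P ^ k ^ (l + 1)) x x' := by
    intro s
    unfold mu
    by_cases h : s 0 = x ∧ s (Fin.last k) = x'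
    · rw [if_pos h, if_pos h, div_mul_eq_mul_div]
      congr 1
      rw [Finset.mul_sum]
      refine Finset.sum_congr rfl fun j _ => ?_
      rw [hu]
      have e1 : skw (G.P ^ k ^ l) s = Q (s j.castSucc) (s j.succ) *
          ∏ i ∈ univ.erase j, Q (s i.castSucc) (s i.succ) := by
        unfold skw
        rw [← hQ, Finset.mul_prod_erase univ (fun i : Fin k => Q (s i.castSucc) (s i.succ))
          (Finset.mem_univ j)]
      have e2 : ∏ i : Fin k, (if i = j then N else Q) (s i.castSucc) (s i.succ) =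
          N (s j.castSucc) (s j.succ) * ∏ i ∈ univ.erase j, Q (s i.castSucc) (s i.succ) := by
        rw [← Finset.mul_prod_erase univ
          (fun i : Fin k => (if i = j then N else Q) (s i.castSucc) (s i.succ))
          (Finset.mem_univ j)]
        rw [if_pos rfl]
        congr 1
        refine Finset.prod_congr rfl fun i hi => ?_
        rw [if_neg (Finset.ne_of_mem_erase hi)]
      rw [e1, e2]
      by_cases hq : Q (s j.castSucc) (s j.succ) = 0
      · rw [hq, hz _ _ hq]
        simp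
      · field_simp
    · rw [if_neg h, if_neg h, zero_mul, zero_div]
  rw [Finset.sum_congr rfl fun s _ => hmu s, ← Finset.sum_div, hSK1 ℝ X k Q N x x']
  have h5 : (∑ j ∈ range k, Q ^ j * N * Q ^ (k - 1 - j)) = usk G.P (Mm G y) (k ^ (l + 1)) := by
    rw [show k ^ (l + 1) = k * k ^ l by rw [pow_succ]; ring, hUSE X G.P (Mm G y) k (k ^ l)]
  rw [h5]
  rfl

end Pool.Agent.H49.AT
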